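import Pool.Agent.helper52.HY.SpecU

set_option autoImplicit false

open Complex Metric Set Filter Topology MeasureTheory
open Pool.Agent.helper98.ILF Pool.Agent.helper16.Multibrot

noncomputable section

namespace HY

/-- Lipschitz bound for the power map on the ball of radius `3`. -/
theorem MGN_pow (n : ℕ) (z z' : ℂ) (hz : ‖z‖ ≤ 3) (hz' : ‖z'‖ ≤ 3) :
    ‖z' ^ n - z ^ n‖ ≤ n * 3 ^ (n - 1) * ‖z' - z‖ := by
  rw [← geom_sum₂_mul, norm_mul]
  apply mul_le_mul_of_nonneg_right _ (norm_nonneg _)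
  have h : ∀ i ∈ Finset.range n, ‖z' ^ i * z ^ (n - 1 - i)‖ ≤ 3 ^ (n - 1) := by
    intro i hi
    have hi' : i ≤ n - 1 := by
      have := Finset.mem_range.1 hi
      omega
    rw [norm_mul, norm_pow, norm_pow]
    calc ‖z'‖ ^ i * ‖z‖ ^ (n - 1 - i) ≤ 3 ^ i * 3 ^ (n - 1 - i) := by gcongr
      _ = 3 ^ (n - 1) := by
        rw [← pow_add]
        congr 1
        omega
  refine (norm_sum_le_of_le _ h).trans ?_
  simp

/-- A point of the filled Julia set has norm at most `2`. -/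
theorem MGN_two (hVKB : VKB_stmt) (n : ℕ) (c : ℂ) (hn : 2 ≤ n) (hc : c ∈ multibrot n) (z : ℂ) (hz : z ∈ filled n c) :
    ‖z‖ ≤ 2 := by
  obtain ⟨hc2, -, -, -, hinv, -, hb4, -, -, hfV, -, -⟩ := hVKB n c hn hc
  by_contra hno
  push Not at hno
  have hfil : ∀ w ∈ filled n c, ‖w‖ < 4 := by
    intro w hw
    have h2 := hb4 0 (hfV 0 hw)
    rwa [mem_ball, dist_zero_right] at h2
  have key : ∀ j : ℕ, ∃ w ∈ filled n c, 2 + 2 ^ j * (‖z‖ - 2) ≤ ‖w‖ := by
    intro j
    induction j with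
    | zero => exact ⟨z, hz, by simp⟩
    | succ j ih =>
      obtain ⟨w, hw, hwj⟩ := ih
      refine ⟨fz n c w, hinv w hw, ?_⟩
      have h0 : (0 : ℝ) < ‖z‖ - 2 := by linarith
      have h1 : 0 < 2 ^ j * (‖z‖ - 2) := by positivity
      have hw2 : 2 < ‖w‖ := by linarith
      have h3 : ‖w‖ ^ 2 ≤ ‖w ^ n‖ := by
        rw [norm_pow]
        exact pow_le_pow_right₀ (by linarith) hn
      have h4 : ‖w ^ n‖ ≤ ‖fz n c w‖ + ‖c‖ := by
        have h5 : w ^ n = fz n c w - c := by simp [fz]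
        rw [h5]
        exact norm_sub_le _ _
      rw [pow_succ]
      nlinarith
  have hlim : ∃ j : ℕ, 4 / (‖z‖ - 2) < 2 ^ j := pow_unbounded_of_one_lt _ (by norm_num)
  obtain ⟨j, hj⟩ := hlim
  obtain ⟨w, hw, hwj⟩ := key j
  have h0 : (0 : ℝ) < ‖z‖ - 2 := by linarith
  rw [div_lt_iff₀ h0] at hj
  have := hfil w hw
  linarith

theorem MGN (hVKB : VKB_stmt) : MGN_stmt := by
  intro n hn k
  have hn1 : (1 : ℝ) ≤ n * 3 ^ (n - 1) := by
    have h1 : (1 : ℝ) ≤ n := by
      exact_mod_cast (by omega : 1 ≤ n)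
    have h2 : (1 : ℝ) ≤ 3 ^ (n - 1) := one_le_pow₀ (by norm_num)
    nlinarith
  have key : ∃ d > (0 : ℝ), d ≤ 1 ∧ ∀ c ∈ multibrot n, ∀ z ∈ filled n c, ball z d ⊆ VV n c k := by
    induction k with
    | zero =>
      refine ⟨1, one_pos, le_refl 1, ?_⟩
      intro c hc z hz w hw
      have h1 := MGN_two hVKB n c hn hc z hz
      rw [mem_ball, dist_eq_norm] at hw
      show ‖(fz n c)^[0] w‖ < 4
      rw [Function.iterate_zero, id]
      have h2 : ‖w‖ ≤ ‖w - z‖ + ‖z‖ := by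
        have := norm_add_le (w - z) z
        rwa [sub_add_cancel] at this
      linarith
    | succ k ih =>
      obtain ⟨d, hd, hd1, hk⟩ := ih
      have hL : (0 : ℝ) < n * 3 ^ (n - 1) := by linarith
      refine ⟨d / (n * 3 ^ (n - 1)), div_pos hd hL, (div_le_self hd.le hn1).trans hd1, ?_⟩
      intro c hc z hz w hw
      obtain ⟨-, -, -, -, hinv, -, -, -, heq, -, -, -⟩ := hVKB n c hn hc
      rw [mem_ball, dist_eq_norm] at hw
      have h1 := MGN_two hVKB n c hn hc z hz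
      have hw1 : ‖w - z‖ < 1 := lt_of_lt_of_le hw ((div_le_self hd.le hn1).trans hd1)
      have h2 : ‖w‖ ≤ ‖w - z‖ + ‖z‖ := by
        have := norm_add_le (w - z) z
        rwa [sub_add_cancel] at this
      rw [heq k]
      show fz n c w ∈ VV n c k
      apply hk c hc (fz n c z) (hinv z hz)
      rw [mem_ball, dist_eq_norm]
      have h3 : fz n c w - fz n c z = w ^ n - z ^ n := by simp [fz]
      rw [h3]
      refine (MGN_pow n z w (by linarith) (by linarith)).trans_lt ?_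
      rw [lt_div_iff₀ hL] at hw
      linarith
  obtain ⟨d, hd, -, h⟩ := key
  exact ⟨d, hd, h⟩

end HY
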