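import Pool.Agent.helper52.HY.Spec

set_option autoImplicit false

open Complex Metric Set Filter Topology MeasureTheory
open Pool.Agent.helper98.ILF Pool.Agent.helper16.Multibrot

noncomputable section

namespace HY

/-- The domains decrease. -/
theorem SHR_mono (n : ℕ) (c : ℂ) (hsub : ∀ k, VV n c (k + 1) ⊆ VV n c k) (l : ℕ) :
    ∀ m, l ≤ m → VV n c m ⊆ VV n c l := by
  intro m hm
  induction m, hm using Nat.le_induction with
  | base => exact fun _ h => h
  | succ m _ ih => exact fun z hz => ih (hsub m hz)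

theorem SHR (hVKB : VKB_stmt) (hTMO : V3.TMO_stmt) (hTUL : V3.TUL_stmt) : SHR_stmt := by
  intro n c hn hc hint ε hε η hη
  obtain ⟨-, -, -, -, -, -, hb4, hsub, -, -, hfil, hcl⟩ := hVKB n c hn hc
  by_contra hno
  push Not at hno
  choose φ hφ x hx hxf hxe hxη using hno
  have hU : IsOpen UD := isOpen_ball
  have hbd : ∀ m, ∀ y ∈ UD, ‖φ m y‖ ≤ 4 := by
    intro m y hy
    have h1 : φ m y ∈ VV n c m := by
      rw [← (hφ m).img]
      exact mem_image_of_mem _ hy
    have h2 := hb4 m h1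
    rw [mem_ball, dist_zero_right] at h2
    exact h2.le
  obtain ⟨F, hF, hconv⟩ := hTMO (hyperfilter ℕ) φ UD hU (by
    intro y hy
    obtain ⟨r, hr, hsubr⟩ := Metric.isOpen_iff.1 hU y hy
    refine ⟨r, hr, 4, Eventually.of_forall fun m => ⟨(hφ m).dif.mono hsubr, fun z hz => hbd m z (hsubr hz)⟩⟩)
  obtain ⟨x₀, hx₀, hxt⟩ := hTUL (hyperfilter ℕ) x (1 - η) (Eventually.of_forall fun m => by
    have := hxη m
    linarith)
  have hx₀U : x₀ ∈ UD := by
    show x₀ ∈ ball (0 : ℂ) 1
    rw [mem_ball, dist_zero_right]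
    linarith
  have h0U : (0 : ℂ) ∈ UD := by
    show (0 : ℂ) ∈ ball (0 : ℂ) 1
    simp
  have hpt : ∀ y ∈ UD, Tendsto (fun m => φ m y) (hyperfilter ℕ : Filter ℕ) (𝓝 (F y)) := by
    intro y hy
    exact hconv.tendsto_at hy
  have hF0 : F 0 = 0 := by
    have h1 := hpt 0 h0U
    have h2 : (fun m => φ m 0) = fun _ => (0 : ℂ) := by
      funext m
      exact (hφ m).val
    rw [h2] at h1
    exact tendsto_nhds_unique h1 tendsto_const_nhds
  have hFx : ε ≤ ‖F x₀‖ := by
    have h1 : Tendsto (fun m => φ m (x m)) (hyperfilter ℕ : Filter ℕ) (𝓝 (F x₀)) :=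
      hconv.tendsto_comp (hF.continuousOn x₀ hx₀U) hx₀U
        (tendsto_nhdsWithin_iff.2 ⟨hxt, Eventually.of_forall hx⟩)
    exact ge_of_tendsto h1.norm (Eventually.of_forall hxe)
  have hFan : AnalyticOnNhd ℂ F UD := hF.analyticOnNhd hU
  have hFfil : ∀ y ∈ UD, F y ∈ filled n c := by
    intro y hy
    apply hfil 0
    intro l _
    apply hcl l
    have h1 : ∀ᶠ m in (hyperfilter ℕ : Filter ℕ), φ m y ∈ VV n c (l + 1) := by
      have h2 : ∀ᶠ m in (hyperfilter ℕ : Filter ℕ), l + 1 ≤ m :=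
        Nat.hyperfilter_le_atTop (eventually_ge_atTop (l + 1))
      filter_upwards [h2] with m hm
      apply SHR_mono n c hsub (l + 1) m hm
      rw [← (hφ m).img]
      exact mem_image_of_mem _ hy
    exact mem_closure_of_tendsto (hpt y hy) h1
  rcases hFan.is_constant_or_isOpen (convex_ball (0 : ℂ) 1).isPreconnected with ⟨w, hw⟩ | hopen
  · have h1 := hw 0 h0U
    have h2 := hw x₀ hx₀U
    rw [h2, ← h1, hF0, norm_zero] at hFx
    linarith
  · have h1 : IsOpen (F '' UD) := hopen UD (fun _ h => h) hU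
    have h2 : F '' UD ⊆ interior (filled n c) := by
      apply interior_maximal _ h1
      rintro _ ⟨y, hy, rfl⟩
      exact hFfil y hy
    have h3 : (0 : ℂ) ∈ interior (filled n c) := h2 ⟨0, h0U, hF0⟩
    rw [hint] at h3
    exact h3

end HY
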